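import Mathlib

set_option autoImplicit false

namespace Pool.Agent.Results.MP_dd98c1_co.GirthEight

/-- `x ∈ M(v)`: the distance from `v` is locally maximal at `x`. -/
def IsLocalMax {V : Type} (G : SimpleGraph V) (v x : V) : Prop :=
  ∀ y, G.Adj x y → G.dist v y ≤ G.dist v x

/-- An S-graph: connected, bipartite, and `|M(v)| = 1` for every vertex `v`. -/
def IsSGraph {V : Type} (G : SimpleGraph V) : Prop :=
  G.Connected ∧ G.IsBipartite ∧ ∀ v, ∃! x, IsLocalMax G v x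

/-- A finite S-graph is primitive if it is not isomorphic to a cartesian product of two (finite)
S-graphs, each with at least two vertices. -/
def IsPrimitive {V : Type} (G : SimpleGraph V) : Prop :=
  IsSGraph G ∧ ∀ (A B : Type) (_ : Fintype A) (_ : Fintype B) (F : SimpleGraph A)
    (H : SimpleGraph B), IsSGraph F → IsSGraph H → 2 ≤ Fintype.card A → 2 ≤ Fintype.card B →
      IsEmpty (G ≃g F □ H)

/-- The set `K` of the girths of the finite primitive cubic S-graphs. -/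
def K : Set ℕ :=
  {g | ∃ (V : Type) (_ : Fintype V) (G : SimpleGraph V),
    IsPrimitive G ∧ (∀ v, (G.neighborSet v).ncard = 3) ∧ G.girth = g}

/-! ### A certificate for distances -/

section cert

variable {V : Type} (G : SimpleGraph V) (d : V → V → ℕ)

lemma exists_walk (h0 : ∀ v, d v v = 0)
    (h2 : ∀ v x, x ≠ v → ∃ y, G.Adj x y ∧ d v y + 1 = d v x) :
    ∀ (n : ℕ) (v x : V), d v x = n → ∃ p : G.Walk v x, p.length = n := by
  intro n
  induction n with
  | zero =>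
    intro v x h
    by_cases hx : x = v
    · subst hx; exact ⟨SimpleGraph.Walk.nil, rfl⟩
    · obtain ⟨y, hy, hd⟩ := h2 v x hx
      omega
  | succ n ih =>
    intro v x h
    by_cases hx : x = v
    · subst hx
      rw [h0] at h
      omega
    · obtain ⟨y, hy, hd⟩ := h2 v x hx
      obtain ⟨p, hp⟩ := ih v y (by omega)
      exact ⟨p.concat hy.symm, by rw [SimpleGraph.Walk.length_concat, hp]⟩

lemma le_length (h1 : ∀ v x y, G.Adj x y → d v y ≤ d v x + 1) (v : V) {u x : V}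
    (p : G.Walk u x) : d v x ≤ d v u + p.length := by
  induction p with
  | nil => simp
  | cons h p ih =>
    have := h1 v _ _ h
    rw [SimpleGraph.Walk.length_cons]
    omega

lemma connected_of_cert [Nonempty V] (h0 : ∀ v, d v v = 0)
    (h2 : ∀ v x, x ≠ v → ∃ y, G.Adj x y ∧ d v y + 1 = d v x) : G.Connected := by
  refine ⟨fun v x => ?_⟩
  obtain ⟨p, -⟩ := exists_walk G d h0 h2 _ v x rfl
  exact ⟨p⟩

lemma dist_of_cert [Nonempty V] (h0 : ∀ v, d v v = 0)
    (h1 : ∀ v x y, G.Adj x y → d v y ≤ d v x + 1)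
    (h2 : ∀ v x, x ≠ v → ∃ y, G.Adj x y ∧ d v y + 1 = d v x) (v x : V) :
    G.dist v x = d v x := by
  apply le_antisymm
  · obtain ⟨p, hp⟩ := exists_walk G d h0 h2 _ v x rfl
    exact hp ▸ SimpleGraph.dist_le p
  · obtain ⟨p, hp⟩ := (connected_of_cert G d h0 h2).exists_walk_length_eq_dist v x
    have := le_length G d h1 v p
    rw [h0] at this
    omega

lemma localMax_of_cert [Nonempty V] (h0 : ∀ v, d v v = 0)
    (h1 : ∀ v x y, G.Adj x y → d v y ≤ d v x + 1)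
    (h2 : ∀ v x, x ≠ v → ∃ y, G.Adj x y ∧ d v y + 1 = d v x) (anti : V → V)
    (h3 : ∀ v x, x ≠ anti v → ∃ y, G.Adj x y ∧ d v x < d v y)
    (h4 : ∀ v y, G.Adj (anti v) y → d v y ≤ d v (anti v)) (v : V) :
    ∃! x, IsLocalMax G v x := by
  refine ⟨anti v, ?_, ?_⟩
  · intro y hy
    rw [dist_of_cert G d h0 h1 h2, dist_of_cert G d h0 h1 h2]
    exact h4 v y hy
  · intro x hx
    by_contra hne
    obtain ⟨y, hy, hlt⟩ := h3 v x hne
    have := hx y hy
    rw [dist_of_cert G d h0 h1 h2, dist_of_cert G d h0 h1 h2] at this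
    omega

/-- If the vertices at distance at most `3` have only one neighbour closer to the base vertex, then
each cycle has length at least `8`. -/
lemma length_ge (h0 : ∀ v, d v v = 0)
    (h1 : ∀ v x y, G.Adj x y → d v y ≤ d v x + 1)
    (h5 : ∀ v x y, G.Adj x y → d v y ≠ d v x)
    (h6 : ∀ v x y y', d v x ≤ 3 → G.Adj x y → G.Adj x y' → d v y < d v x → d v y' < d v x →
      y = y') (v : V) (w : G.Walk v v) (hw : w.IsCycle) : 8 ≤ w.length := by
  by_contra hlt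
  push Not at hlt
  have hL : 3 ≤ w.length := hw.three_le_length
  have a1 : ∀ j, j ≤ w.length → d v (w.getVert j) ≤ j := by
    intro j
    induction j with
    | zero => intro _; rw [SimpleGraph.Walk.getVert_zero, h0]
    | succ j ih =>
      intro hj
      have := h1 v _ _ (w.adj_getVert_succ (i := j) (by omega))
      have := ih (by omega)
      omega
  have a2 : ∀ j, j ≤ w.length → d v (w.getVert (w.length - j)) ≤ j := by
    intro j
    induction j with
    | zero => intro _; rw [Nat.sub_zero, SimpleGraph.Walk.getVert_length, h0]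
    | succ j ih =>
      intro hj
      have h := w.adj_getVert_succ (i := w.length - (j + 1)) (by omega)
      rw [show w.length - (j + 1) + 1 = w.length - j by omega] at h
      have := h1 v _ _ h.symm
      have := ih (by omega)
      omega
  obtain ⟨j, hj, hmax⟩ := Finset.exists_max_image (Finset.range (w.length + 1))
    (fun j => d v (w.getVert j)) ⟨0, by simp⟩
  rw [Finset.mem_range] at hj
  have hpos : 0 < d v (w.getVert j) := by
    have h := hmax 1 (by rw [Finset.mem_range]; omega)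
    have h' := w.adj_getVert_succ (i := 0) (by omega)
    have h'' := h5 v _ _ h'
    rw [SimpleGraph.Walk.getVert_zero, h0] at h''
    simp only [zero_add] at h''
    omega
  have hj0 : j ≠ 0 := by
    rintro rfl
    rw [SimpleGraph.Walk.getVert_zero, h0] at hpos
    omega
  have hjL : j ≠ w.length := by
    rintro rfl
    rw [SimpleGraph.Walk.getVert_length, h0] at hpos
    omega
  have hle3 : d v (w.getVert j) ≤ 3 := by
    by_cases hj3 : j ≤ 3
    · exact (a1 j (by omega)).trans hj3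
    · have := a2 (w.length - j) (by omega)
      rw [show w.length - (w.length - j) = j by omega] at this
      omega
  have hadj1 : G.Adj (w.getVert j) (w.getVert (j - 1)) := by
    have := w.adj_getVert_succ (i := j - 1) (by omega)
    rw [show j - 1 + 1 = j by omega] at this
    exact this.symm
  have hadj2 : G.Adj (w.getVert j) (w.getVert (j + 1)) := w.adj_getVert_succ (by omega)
  have hm1 := hmax (j - 1) (by rw [Finset.mem_range]; omega)
  have hm2 := hmax (j + 1) (by rw [Finset.mem_range]; omega)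
  have hn1 := h5 v _ _ hadj1
  have hn2 := h5 v _ _ hadj2
  have := h6 v _ _ _ hle3 hadj1 hadj2 (by omega) (by omega)
  exact hw.getVert_sub_one_ne_getVert_add_one (by omega) this

/-- there are no quadrangles -/
lemma no_square (h0 : ∀ v, d v v = 0)
    (h1 : ∀ v x y, G.Adj x y → d v y ≤ d v x + 1)
    (h2 : ∀ v x, x ≠ v → ∃ y, G.Adj x y ∧ d v y + 1 = d v x)
    (h5 : ∀ v x y, G.Adj x y → d v y ≠ d v x)
    (h6 : ∀ v x y y', d v x ≤ 3 → G.Adj x y → G.Adj x y' → d v y < d v x → d v y' < d v x →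
      y = y') {x y z y' : V} (hxz : z ≠ x) (a1 : G.Adj x y) (a2 : G.Adj y z) (a3 : G.Adj x y')
    (a4 : G.Adj y' z) : y = y' := by
  have e1 := h1 x _ _ a1
  have e2 := h1 x _ _ a2
  have e3 := h1 x _ _ a3
  have f1 := h5 x _ _ a1
  have f2 := h5 x _ _ a2
  have f3 := h5 x _ _ a3
  have f4 := h5 x _ _ a4
  rw [h0] at e1 e3 f1 f3
  obtain ⟨u, -, hu⟩ := h2 x z hxz
  exact h6 x z y y' (by omega) a2.symm a4.symm (by omega) (by omega)

end cert

lemma exists_edge {A : Type} [Fintype A] (F : SimpleGraph A) (hF : F.Connected)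
    (hA : 2 ≤ Fintype.card A) : ∃ a b, F.Adj a b := by
  obtain ⟨a, b, hab⟩ := Fintype.exists_pair_of_one_lt_card (show 1 < Fintype.card A by omega)
  obtain ⟨p⟩ := hF.preconnected a b
  cases p with
  | nil => exact absurd rfl hab
  | cons h _ => exact ⟨_, _, h⟩

lemma not_iso_prod {V : Type} (G : SimpleGraph V)
    (hsq : ∀ x y z y' : V, z ≠ x → G.Adj x y → G.Adj y z → G.Adj x y' → G.Adj y' z → y = y')
    {A B : Type} [Fintype A] [Fintype B] (F : SimpleGraph A) (H : SimpleGraph B)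
    (hF : F.Connected) (hH : H.Connected) (hA : 2 ≤ Fintype.card A) (hB : 2 ≤ Fintype.card B) :
    IsEmpty (G ≃g F □ H) := by
  refine ⟨fun e => ?_⟩
  obtain ⟨a, b, hab⟩ := exists_edge F hF hA
  obtain ⟨c, d, hcd⟩ := exists_edge H hH hB
  have key := hsq (e.symm (a, c)) (e.symm (b, c)) (e.symm (b, d)) (e.symm (a, d))
    (fun h => hab.ne (congrArg Prod.fst (e.symm.injective h)).symm)
    (e.symm.map_adj_iff.2 (by simp [SimpleGraph.boxProd_adj, hab]))
    (e.symm.map_adj_iff.2 (by simp [SimpleGraph.boxProd_adj, hcd]))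
    (e.symm.map_adj_iff.2 (by simp [SimpleGraph.boxProd_adj, hcd]))
    (e.symm.map_adj_iff.2 (by simp [SimpleGraph.boxProd_adj, hab]))
  exact hab.ne (congrArg Prod.fst (e.symm.injective key)).symm

/-! ### The graph -/

/-- the vertices -/
abbrev X : Type := Fin 6 × ZMod 10

/-- `(i, a)` is adjacent to `(j, a + s)` for the three pairs `(j, s)` in `nbr i` -/
def nbr : Fin 6 → List (Fin 6 × ZMod 10)
  | 0 => [(3, 0), (3, 2), (4, 0)]
  | 1 => [(4, 8), (5, 0), (3, 9)]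
  | 2 => [(5, 3), (5, 9), (4, 4)]
  | 3 => [(0, 0), (1, 1), (0, 8)]
  | 4 => [(0, 0), (2, 6), (1, 2)]
  | 5 => [(1, 0), (2, 7), (2, 1)]

/-- the distances from `(i, 0)` -/
def tab : Fin 6 → List (List ℕ)
  | 0 => [[0, 4, 2, 6, 4, 8, 4, 6, 2, 4],
      [4, 2, 2, 2, 4, 4, 6, 6, 6, 4],
      [4, 6, 4, 4, 4, 4, 2, 4, 4, 4],
      [1, 3, 1, 5, 3, 7, 5, 7, 3, 5],
      [1, 3, 3, 5, 5, 7, 5, 5, 3, 3],
      [5, 3, 3, 3, 5, 3, 5, 5, 5, 3]]
  | 1 => [[4, 4, 6, 6, 6, 4, 4, 2, 2, 2],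
      [0, 4, 4, 4, 4, 8, 4, 4, 4, 4],
      [4, 2, 6, 4, 2, 4, 6, 2, 4, 6],
      [3, 3, 5, 5, 7, 5, 5, 3, 3, 1],
      [5, 3, 5, 7, 5, 3, 5, 3, 1, 3],
      [1, 5, 5, 3, 3, 7, 3, 3, 5, 5]]
  | 2 => [[4, 4, 4, 4, 2, 4, 4, 4, 4, 6],
      [4, 6, 4, 2, 6, 4, 2, 4, 6, 2],
      [0, 6, 4, 4, 2, 8, 2, 4, 4, 6],
      [5, 5, 3, 5, 3, 3, 3, 5, 3, 5],
      [3, 3, 5, 5, 1, 5, 5, 3, 3, 7],
      [5, 5, 5, 1, 7, 3, 3, 3, 7, 1]]
  | 3 => [[1, 5, 3, 7, 5, 7, 3, 5, 1, 3],
      [3, 1, 3, 3, 5, 5, 7, 5, 5, 3],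
      [5, 5, 3, 5, 3, 3, 3, 5, 3, 5],
      [0, 4, 2, 6, 4, 8, 4, 6, 2, 4],
      [2, 4, 4, 6, 6, 6, 4, 4, 2, 2],
      [4, 2, 4, 4, 4, 4, 6, 4, 4, 4]]
  | 4 => [[1, 3, 3, 5, 5, 7, 5, 5, 3, 3],
      [5, 3, 1, 3, 5, 3, 5, 7, 5, 3],
      [3, 7, 3, 3, 5, 5, 1, 5, 5, 3],
      [2, 2, 2, 4, 4, 6, 6, 6, 4, 4],
      [0, 4, 4, 4, 4, 8, 4, 4, 4, 4],
      [6, 4, 2, 4, 6, 2, 4, 6, 4, 2]]
  | 5 => [[5, 3, 5, 5, 5, 3, 5, 3, 3, 3],
      [1, 5, 5, 3, 3, 7, 3, 3, 5, 5],
      [5, 1, 7, 3, 3, 3, 7, 1, 5, 5],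
      [4, 4, 4, 4, 6, 4, 4, 4, 4, 2],
      [6, 2, 4, 6, 4, 2, 6, 4, 2, 4],
      [0, 6, 4, 4, 2, 8, 2, 4, 4, 6]]

def D (i : Fin 6) (x : X) : ℕ := ((tab i).getD x.1.val []).getD x.2.val 0

lemma nbr_symm : ∀ i : Fin 6, ∀ s ∈ nbr i, (i, -s.2) ∈ nbr s.1 := by decide

lemma nbr_irrefl : ∀ i : Fin 6, (i, (0 : ZMod 10)) ∉ nbr i := by decide

def G : SimpleGraph X where
  Adj x y := (y.1, y.2 - x.2) ∈ nbr x.1
  symm := ⟨by
    intro x y h
    have := nbr_symm _ _ h
    simpa using this⟩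
  loopless := ⟨by
    intro x h
    simp only [sub_self] at h
    exact nbr_irrefl _ h⟩

lemma A1 : ∀ i : Fin 6, D i (i, 0) = 0 := by decide

set_option maxRecDepth 10000 in
lemma A2 : ∀ i : Fin 6, ∀ x : X, ∀ s ∈ nbr x.1,
    D i (s.1, x.2 + s.2) ≠ D i x ∧ D i (s.1, x.2 + s.2) ≤ D i x + 1 := by decide

set_option maxRecDepth 10000 in
lemma A3 : ∀ i : Fin 6, ∀ x : X, x ≠ (i, 0) → ∃ s ∈ nbr x.1,
    D i (s.1, x.2 + s.2) + 1 = D i x := by decide

set_option maxRecDepth 10000 in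
lemma A4 : ∀ i : Fin 6, ∀ x : X, x ≠ (i, 5) → ∃ s ∈ nbr x.1,
    D i x < D i (s.1, x.2 + s.2) := by decide

lemma A5 : ∀ i : Fin 6, ∀ s ∈ nbr i, D i (s.1, 5 + s.2) ≤ D i (i, 5) := by decide

set_option maxRecDepth 10000 in
lemma A6 : ∀ i : Fin 6, ∀ x : X, D i x ≤ 3 → ∀ s ∈ nbr x.1, ∀ s' ∈ nbr x.1,
    D i (s.1, x.2 + s.2) < D i x → D i (s'.1, x.2 + s'.2) < D i x → s = s' := by decide

/-- the distance in `G` -/
def d (v x : X) : ℕ := D v.1 (x.1, x.2 - v.2)

/-- the antipode -/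
def anti (v : X) : X := (v.1, v.2 + 5)

lemma adj_iff (x y : X) : G.Adj x y ↔ ∃ s ∈ nbr x.1, y = (s.1, x.2 + s.2) := by
  constructor
  · intro h
    exact ⟨_, h, by simp⟩
  · rintro ⟨s, hs, rfl⟩
    change ((s.1, x.2 + s.2).1, (s.1, x.2 + s.2).2 - x.2) ∈ nbr x.1
    simpa using hs

lemma d_step (v x : X) (s : Fin 6 × ZMod 10) :
    d v (s.1, x.2 + s.2) = D v.1 (s.1, (x.2 - v.2) + s.2) := by
  unfold d
  congr 2
  ring

lemma h0 (v : X) : d v v = 0 := by
  unfold d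
  rw [sub_self]
  exact A1 v.1

lemma h1 (v x y : X) (h : G.Adj x y) : d v y ≤ d v x + 1 := by
  obtain ⟨s, hs, rfl⟩ := (adj_iff x y).1 h
  rw [d_step]
  exact (A2 v.1 (x.1, x.2 - v.2) s hs).2

lemma h5 (v x y : X) (h : G.Adj x y) : d v y ≠ d v x := by
  obtain ⟨s, hs, rfl⟩ := (adj_iff x y).1 h
  rw [d_step]
  exact (A2 v.1 (x.1, x.2 - v.2) s hs).1

lemma h2 (v x : X) (h : x ≠ v) : ∃ y, G.Adj x y ∧ d v y + 1 = d v x := by
  have hne : ((x.1, x.2 - v.2) : X) ≠ (v.1, 0) := by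
    intro e
    apply h
    rw [Prod.mk.injEq] at e
    exact Prod.ext e.1 (sub_eq_zero.1 e.2)
  obtain ⟨s, hs, hd⟩ := A3 v.1 (x.1, x.2 - v.2) hne
  refine ⟨(s.1, x.2 + s.2), (adj_iff _ _).2 ⟨s, hs, rfl⟩, ?_⟩
  rw [d_step]
  exact hd

lemma h3 (v x : X) (h : x ≠ anti v) : ∃ y, G.Adj x y ∧ d v x < d v y := by
  have hne : ((x.1, x.2 - v.2) : X) ≠ (v.1, 5) := by
    intro e
    apply h
    rw [Prod.mk.injEq] at e
    exact Prod.ext e.1 (by change x.2 = v.2 + 5; rw [← e.2]; ring)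
  obtain ⟨s, hs, hd⟩ := A4 v.1 (x.1, x.2 - v.2) hne
  refine ⟨(s.1, x.2 + s.2), (adj_iff _ _).2 ⟨s, hs, rfl⟩, ?_⟩
  rw [d_step]
  exact hd

lemma h4 (v y : X) (h : G.Adj (anti v) y) : d v y ≤ d v (anti v) := by
  obtain ⟨s, hs, rfl⟩ := (adj_iff _ y).1 h
  rw [d_step]
  have e : (anti v).2 - v.2 = 5 := by simp [anti]
  have := A5 v.1 s hs
  rw [e]
  have e2 : d v (anti v) = D v.1 (v.1, 5) := by
    unfold d
    rw [e]
    rfl
  rw [e2]
  exact this

lemma h6 (v x y y' : X) (hle : d v x ≤ 3) (a : G.Adj x y) (a' : G.Adj x y')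
    (hy : d v y < d v x) (hy' : d v y' < d v x) : y = y' := by
  obtain ⟨s, hs, rfl⟩ := (adj_iff x y).1 a
  obtain ⟨s', hs', rfl⟩ := (adj_iff x y').1 a'
  rw [d_step] at hy hy'
  rw [A6 v.1 (x.1, x.2 - v.2) hle s hs s' hs' hy hy']

instance : Nonempty X := ⟨(0, 0)⟩

lemma bipartite : G.IsBipartite := by
  refine ⟨SimpleGraph.Coloring.mk (fun x : X => if x.1 < 3 then (0 : Fin 2) else 1) ?_⟩
  intro x y h
  obtain ⟨s, hs, rfl⟩ := (adj_iff x y).1 h
  have : ∀ i : Fin 6, ∀ s ∈ nbr i, (if i < 3 then (0 : Fin 2) else 1) ≠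
      (if s.1 < 3 then (0 : Fin 2) else 1) := by decide
  exact this x.1 s hs

lemma isSGraph : IsSGraph G :=
  ⟨connected_of_cert G d h0 h2, bipartite, localMax_of_cert G d h0 h1 h2 anti h3 h4⟩

lemma cubic (v : X) : (G.neighborSet v).ncard = 3 := by
  have h : G.neighborSet v = (((nbr v.1).map (fun s => ((s.1, v.2 + s.2) : X))).toFinset : Set X) := by
    ext y
    simp only [SimpleGraph.mem_neighborSet, adj_iff, List.coe_toFinset, List.mem_map,
      Set.mem_ofPred_eq]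
    constructor
    · rintro ⟨s, hs, rfl⟩; exact ⟨s, hs, rfl⟩
    · rintro ⟨s, hs, rfl⟩; exact ⟨s, hs, rfl⟩
  rw [h, Set.ncard_coe_finset, List.toFinset_card_of_nodup]
  · have : ∀ i : Fin 6, (nbr i).length = 3 := by decide
    rw [List.length_map, this]
  · apply List.Nodup.map
    · intro s s' h
      simp only [Prod.mk.injEq, add_right_inj] at h
      exact Prod.ext h.1 h.2
    · have : ∀ i : Fin 6, (nbr i).Nodup := by decide
      exact this _

lemma adj_of (x y : X) (h : (y.1, y.2 - x.2) ∈ nbr x.1) : G.Adj x y := h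

/-- a closed walk of length 8 -/
def cyc : G.Walk (0, 0) (0, 0) :=
  .cons (adj_of (0, 0) (3, 0) (by decide)) <|
  .cons (adj_of (3, 0) (1, 1) (by decide)) <|
  .cons (adj_of (1, 1) (4, 9) (by decide)) <|
  .cons (adj_of (4, 9) (0, 9) (by decide)) <|
  .cons (adj_of (0, 9) (3, 1) (by decide)) <|
  .cons (adj_of (3, 1) (1, 2) (by decide)) <|
  .cons (adj_of (1, 2) (4, 0) (by decide)) <|
  .cons (adj_of (4, 0) (0, 0) (by decide)) .nil

lemma cyc_isCycle : cyc.IsCycle := by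
  rw [SimpleGraph.Walk.isCycle_def]
  refine ⟨⟨?_⟩, (by intro h; cases h), ?_⟩
  · unfold cyc
    simp only [SimpleGraph.Walk.edges_cons, SimpleGraph.Walk.edges_nil]
    decide
  · unfold cyc
    simp only [SimpleGraph.Walk.support_cons, SimpleGraph.Walk.support_nil, List.tail_cons]
    decide

lemma girth_eq : G.girth = 8 := by
  have h : G.egirth = 8 := by
    apply le_antisymm
    · exact SimpleGraph.egirth_le_length cyc_isCycle
    · rw [SimpleGraph.le_egirth]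
      intro v w hw
      exact_mod_cast length_ge G d h0 h1 h5 h6 v w hw
  rw [SimpleGraph.girth, h]
  rfl

/-- `8` is the girth of a primitive cubic S-graph. -/
theorem result : 8 ∈ K := by
  refine ⟨X, inferInstance, G, ⟨isSGraph, ?_⟩, cubic, girth_eq⟩
  intro A B _ _ F H hF hH hA hB
  exact not_iso_prod G (fun x y z y' hxz a1 a2 a3 a4 =>
    no_square G d h0 h1 h2 h5 h6 hxz a1 a2 a3 a4) F H hF.1 hH.1 hA hB

end Pool.Agent.Results.MP_dd98c1_co.GirthEight
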